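import Mathlib
import Pool.Agent.Lib.helper27.ChainTower

set_option autoImplicit false

namespace Pool.Agent.Results.MP_31a5b6_al.NoLPrimes

open Filter Pool.Agent.Lib.helper27.ChainTower

/-- A bundled chain. -/
structure Ch where
  /-- carrier -/
  α : Type
  /-- order -/
  lo : LinearOrder α

/-- The tower of iterated ultrapowers of the rationals. -/
noncomputable def ch : ℕ → Ch
  | 0 => ⟨ℚ, inferInstance⟩
  | n + 1 => ⟨Ult (ch n).α, @Germ.instLinearOrder ℕ (ch n).α (hyperfilter ℕ) (ch n).lo⟩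

/-- The carrier at level `n`. -/
def T (n : ℕ) : Type := (ch n).α

noncomputable instance instT (n : ℕ) : LinearOrder (T n) := (ch n).lo

/-- The embedding of one level in the next. -/
noncomputable def ι (n : ℕ) : T n ↪o T (n + 1) := diag (T := T n)

/-- The extension of automorphisms to the next level. -/
noncomputable def st (n : ℕ) : (T n ≃o T n) →* (T (n + 1) ≃o T (n + 1)) :=
  Pool.Agent.Lib.helper27.ChainTower.star (T := T n)

theorem st_ι (n : ℕ) (f : T n ≃o T n) (x : T n) : st n f (ι n x) = ι n (f x) := star_diag f x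

theorem st_omax (n : ℕ) (f g : T n ≃o T n) : st n (omax f g) = omax (st n f) (st n g) :=
  star_omax f g

theorem st_omin (n : ℕ) (f g : T n ≃o T n) : st n (omin f g) = omin (st n f) (st n g) :=
  star_omin f g

theorem st_fix (n : ℕ) (f : T n ≃o T n) (t1 t2 : T n)
    (h : (∀ s, s < t1 → f s = s) ∧ (∀ s, t2 < s → f s = s)) :
    (∀ s, s < ι n t1 → st n f s = s) ∧ (∀ s, ι n t2 < s → st n f s = s) := star_fix f t1 t2 h

theorem st_splits (n : ℕ) (f : T n ≃o T n) (hB : Bdd f) (hpos : ∀ t, t ≤ f t) (hne : f ≠ 1) :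
    Splits (st n f) := star_splits f hB hpos hne

theorem good (n : ℕ) : Good (T n) := by
  induction n with
  | zero => exact good_rat
  | succ n ih => exact good_ult (T := T n) ih

theorem ne_T (n : ℕ) : Nonempty (T n) := by
  induction n with
  | zero => exact ⟨(0 : ℚ)⟩
  | succ n ih => exact ⟨ι n ih.some⟩

theorem extend (A : ℕ → Type) (hA : ∀ n, Nonempty (A n)) (s : ∀ n, A n → A (n + 1)) (N : ℕ)
    (y : A N) : ∃ x : ∀ n, A n, x N = y ∧ ∀ n, N ≤ n → x (n + 1) = s n (x n) := by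
  classical
  refine ⟨fun n => if h : N ≤ n then Nat.leRecOn h (fun {k} => s k) y else (hA n).some, ?_, ?_⟩
  · simp only [le_refl, dif_pos, Nat.leRecOn_self]
  · intro n hn
    simp only [dif_pos hn, dif_pos (Nat.le_succ_of_le hn)]
    exact Nat.leRecOn_succ hn y

/-- Eventually compatible sequences of points. -/
def X : Type := {x : ∀ n, T n // ∃ N, ∀ n, N ≤ n → x (n + 1) = ι n (x n)}

instance instX : Preorder X where
  le x y := ∀ᶠ n in atTop, x.1 n ≤ y.1 n
  le_refl x := Eventually.of_forall fun _ => le_rfl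
  le_trans x y z h1 h2 := (h1.and h2).mono fun _ h => h.1.trans h.2

theorem le_up {x y : ∀ n, T n} {N : ℕ} (hx : ∀ n, N ≤ n → x (n + 1) = ι n (x n))
    (hy : ∀ n, N ≤ n → y (n + 1) = ι n (y n)) (n : ℕ) (hn : N ≤ n) :
    x n ≤ y n ↔ x N ≤ y N := by
  induction n, hn using Nat.le_induction with
  | base => rfl
  | succ n hn ih => rw [hx n hn, hy n hn, (ι n).le_iff_le, ih]

theorem le_iff {x y : X} {N : ℕ} (hx : ∀ n, N ≤ n → x.1 (n + 1) = ι n (x.1 n))
    (hy : ∀ n, N ≤ n → y.1 (n + 1) = ι n (y.1 n)) : x ≤ y ↔ x.1 N ≤ y.1 N := by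
  constructor
  · intro h
    obtain ⟨n, h1, h2⟩ := (Eventually.and h (eventually_ge_atTop N)).exists
    exact (le_up hx hy n h2).mp h1
  · intro h
    exact (eventually_ge_atTop N).mono fun n hn => (le_up hx hy n hn).mpr h

instance instTotal : @Std.Total X (· ≤ ·) where
  total x y := by
    obtain ⟨N, hN⟩ := x.2
    obtain ⟨M, hM⟩ := y.2
    have hx : ∀ n, max N M ≤ n → x.1 (n + 1) = ι n (x.1 n) :=
      fun n hn => hN n (le_of_max_le_left hn)
    have hy : ∀ n, max N M ≤ n → y.1 (n + 1) = ι n (y.1 n) :=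
      fun n hn => hM n (le_of_max_le_right hn)
    rw [le_iff hx hy, le_iff hy hx]
    exact le_total _ _

/-- The direct limit of the tower. -/
def Lim : Type := Antisymmetrization X (· ≤ ·)

open Classical in
noncomputable instance instLim : LinearOrder Lim :=
  inferInstanceAs (LinearOrder (Antisymmetrization X (· ≤ ·)))

/-- The class of a sequence. -/
def mk (x : X) : Lim := toAntisymmetrization (· ≤ ·) x

theorem mk_surj (a : Lim) : ∃ x, mk x = a := Quotient.exists_rep a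

theorem mk_le {x y : X} : mk x ≤ mk y ↔ ∀ᶠ n in atTop, x.1 n ≤ y.1 n :=
  toAntisymmetrization_le_toAntisymmetrization_iff

theorem mk_eq {x y : X} : mk x = mk y ↔ ∀ᶠ n in atTop, x.1 n = y.1 n := by
  rw [le_antisymm_iff, mk_le, mk_le, ← eventually_and]
  simp only [← le_antisymm_iff]

theorem mk_lt {x y : X} (h : mk x < mk y) : ∀ᶠ n in atTop, x.1 n < y.1 n := by
  obtain ⟨N, hN⟩ := x.2
  obtain ⟨M, hM⟩ := y.2
  refine (eventually_ge_atTop (max N M)).mono fun n hn => ?_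
  have hx : ∀ k, n ≤ k → x.1 (k + 1) = ι k (x.1 k) :=
    fun k hk => hN k (le_of_max_le_left (hn.trans hk))
  have hy : ∀ k, n ≤ k → y.1 (k + 1) = ι k (y.1 k) :=
    fun k hk => hM k (le_of_max_le_right (hn.trans hk))
  by_contra hc
  exact absurd (mk_le.mpr ((le_iff hy hx).mpr (not_lt.mp hc))) (not_le.mpr h)

/-- Eventually compatible sequences of bounded automorphisms. -/
def Comp (φ : ∀ n, T n ≃o T n) (N : ℕ) : Prop :=
  Bdd (φ N) ∧ ∀ n, N ≤ n → φ (n + 1) = st n (φ n)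

theorem Comp.mono {φ : ∀ n, T n ≃o T n} {N M : ℕ} (h : Comp φ N) (hM : N ≤ M) : Comp φ M := by
  refine ⟨?_, fun n hn => h.2 n (hM.trans hn)⟩
  induction M, hM using Nat.le_induction with
  | base => exact h.1
  | succ n hn ih =>
    obtain ⟨t1, t2, ht⟩ := ih
    rw [h.2 n hn]
    exact ⟨_, _, st_fix n _ t1 t2 ht⟩

/-- Action on sequences. -/
noncomputable def act (φ : ∀ n, T n ≃o T n) (N : ℕ) (h : ∀ n, N ≤ n → φ (n + 1) = st n (φ n)) (x : X) : X :=
  ⟨fun n => φ n (x.1 n), by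
    obtain ⟨M, hM⟩ := x.2
    refine ⟨max N M, fun n hn => ?_⟩
    beta_reduce
    rw [h n (le_of_max_le_left hn), hM n (le_of_max_le_right hn), st_ι]⟩

/-- `F` is induced by the sequence `φ`. -/
def Ind (F : Lim ≃o Lim) (φ : ∀ n, T n ≃o T n) : Prop :=
  ∀ x y : X, (∀ᶠ n in atTop, y.1 n = φ n (x.1 n)) → F (mk x) = mk y

theorem exists_ind (φ : ∀ n, T n ≃o T n) (N : ℕ) (h : Comp φ N) : ∃ F, Ind F φ := by
  have h' : ∀ n, N ≤ n → (φ (n + 1))⁻¹ = st n (φ n)⁻¹ := fun n hn => by rw [h.2 n hn, map_inv]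
  choose rep hrep using mk_surj
  have key : ∀ a b : Lim, mk (act φ N h.2 (rep a)) ≤ mk (act φ N h.2 (rep b)) ↔ a ≤ b := by
    intro a b
    conv_rhs => rw [← hrep a, ← hrep b]
    rw [mk_le, mk_le]
    simp only [act, OrderIso.le_iff_le]
  have key2 : ∀ x y : X, (∀ᶠ n in atTop, y.1 n = φ n (x.1 n)) →
      mk (act φ N h.2 (rep (mk x))) = mk y := by
    intro x y hxy
    rw [mk_eq]
    refine (hxy.and (mk_eq.mp (hrep (mk x)))).mono fun n hn => ?_
    show φ n _ = _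
    rw [hn.2, hn.1]
  refine ⟨StrictMono.orderIsoOfSurjective (fun a => mk (act φ N h.2 (rep a)))
    (fun a b hab => lt_of_not_ge fun hc => absurd ((key b a).mp hc) (not_le.mpr hab))
    (fun b => ⟨mk (act (fun n => (φ n)⁻¹) N h' (rep b)), ?_⟩), key2⟩
  conv_rhs => rw [← hrep b]
  apply key2
  exact Eventually.of_forall fun n => ((φ n).apply_symm_apply _).symm

theorem Ind.apply {F : Lim ≃o Lim} {φ : ∀ n, T n ≃o T n} (hF : Ind F φ) {N : ℕ} (h : Comp φ N)
    (x : X) : F (mk x) = mk (act φ N h.2 x) := hF _ _ (Eventually.of_forall fun _ => rfl)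

/-- The group of automorphisms of the limit coming from bounded automorphisms of some level. -/
def L : Subgroup (Lim ≃o Lim) where
  carrier := {F | ∃ φ N, Comp φ N ∧ Ind F φ}
  one_mem' := ⟨fun _ => 1, 0, ⟨⟨(0 : ℚ), (0 : ℚ), fun _ _ => rfl, fun _ _ => rfl⟩,
    fun n _ => (map_one (st n)).symm⟩, fun x y h => mk_eq.mpr (h.mono fun _ hn => hn.symm)⟩
  mul_mem' := by
    rintro F G ⟨φ, N, h1, h2⟩ ⟨ψ, M, h3, h4⟩
    have h5 := h1.mono (le_max_left N M)
    have h6 := h3.mono (le_max_right N M)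
    refine ⟨fun n => φ n * ψ n, max N M, ⟨h5.1.mul h6.1, fun n hn => ?_⟩, fun x y h => ?_⟩
    · beta_reduce
      rw [h5.2 n hn, h6.2 n hn, map_mul]
    · show F (G (mk x)) = _
      rw [h4.apply h3]
      exact h2 _ _ h
  inv_mem' := by
    rintro F ⟨φ, N, h1, h2⟩
    refine ⟨fun n => (φ n)⁻¹, N, ⟨h1.1.inv, fun n hn => ?_⟩, fun x y h => ?_⟩
    · beta_reduce
      rw [h1.2 n hn, map_inv]
    · show F.symm (mk x) = _
      rw [OrderIso.symm_apply_eq]
      refine (h2 _ _ (h.mono fun n hn => ?_)).symm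
      rw [hn]
      exact ((φ n).apply_symm_apply _).symm

theorem mk_max {x y z : X} (h : ∀ᶠ n in atTop, z.1 n = max (x.1 n) (y.1 n)) :
    mk z = max (mk x) (mk y) := by
  rcases le_total (mk x) (mk y) with h1 | h1
  · rw [max_eq_right h1, mk_eq]
    exact (h.and (mk_le.mp h1)).mono fun n hn => by rw [hn.1, max_eq_right hn.2]
  · rw [max_eq_left h1, mk_eq]
    exact (h.and (mk_le.mp h1)).mono fun n hn => by rw [hn.1, max_eq_left hn.2]

theorem mk_min {x y z : X} (h : ∀ᶠ n in atTop, z.1 n = min (x.1 n) (y.1 n)) :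
    mk z = min (mk x) (mk y) := by
  rcases le_total (mk x) (mk y) with h1 | h1
  · rw [min_eq_left h1, mk_eq]
    exact (h.and (mk_le.mp h1)).mono fun n hn => by rw [hn.1, min_eq_left hn.2]
  · rw [min_eq_right h1, mk_eq]
    exact (h.and (mk_le.mp h1)).mono fun n hn => by rw [hn.1, min_eq_right hn.2]

theorem point (N : ℕ) (y : T N) :
    ∃ x : X, x.1 N = y ∧ ∀ n, N ≤ n → x.1 (n + 1) = ι n (x.1 n) := by
  obtain ⟨x, h1, h2⟩ := extend T ne_T (fun n => ι n) N y
  exact ⟨⟨x, N, h2⟩, h1, h2⟩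

theorem lift (N : ℕ) (f : T N ≃o T N) (hf : Bdd f) :
    ∃ φ F, φ N = f ∧ Comp φ N ∧ Ind F φ := by
  obtain ⟨φ, h1, h2⟩ := extend (fun n => T n ≃o T n) (fun _ => ⟨1⟩) (fun n => st n) N f
  have h3 : Comp φ N := ⟨h1 ▸ hf, h2⟩
  obtain ⟨F, hF⟩ := exists_ind φ N h3
  exact ⟨φ, F, h1, h3, hF⟩

theorem act_comp {φ : ∀ n, T n ≃o T n} {N : ℕ} (h : Comp φ N) {x : X}
    (hx : ∀ n, N ≤ n → x.1 (n + 1) = ι n (x.1 n)) :
    ∀ n, N ≤ n → (act φ N h.2 x).1 (n + 1) = ι n ((act φ N h.2 x).1 n) := by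
  intro n hn
  show φ (n + 1) _ = _
  rw [h.2 n hn, hx n hn, st_ι]; rfl

theorem ne_one {F : Lim ≃o Lim} {φ : ∀ n, T n ≃o T n} {N : ℕ} (h : Comp φ N) (hF : Ind F φ) :
    F = 1 ↔ φ N = 1 := by
  constructor
  · rintro rfl
    ext y
    obtain ⟨x, h1, h2⟩ := point N y
    have h3 := hF.apply h x
    have h4 := (le_iff h2 (act_comp h h2)).mp (mk_le.mp h3.le)
    have h5 := (le_iff (act_comp h h2) h2).mp (mk_le.mp h3.ge)
    subst h1
    exact le_antisymm h5 h4
  · intro h1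
    have h2 : ∀ n, N ≤ n → φ n = 1 := by
      intro n hn
      induction n, hn using Nat.le_induction with
      | base => exact h1
      | succ n hn ih => rw [h.2 n hn, ih, map_one]
    ext a
    obtain ⟨x, rfl⟩ := mk_surj a
    exact hF x x ((eventually_ge_atTop N).mono fun n hn => by rw [h2 n hn]; rfl)

/-- There is a chain with more than two points and a doubly transitive lattice-ordered group of
boundedly supported automorphisms of it in which every strictly positive element is the join of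
two disjoint nontrivial elements. -/
theorem result : ∃ (S : Type) (_ : LinearOrder S) (G : Subgroup (S ≃o S)),
    (∃ a b c : S, a < b ∧ b < c) ∧
    (∀ f ∈ G, ∀ g ∈ G, ∃ h ∈ G, ∀ t, h t = max (f t) (g t)) ∧
    (∀ f ∈ G, ∀ g ∈ G, ∃ h ∈ G, ∀ t, h t = min (f t) (g t)) ∧
    (∀ r1 r2 s1 s2 : S, r1 < r2 → s1 < s2 → ∃ f ∈ G, f r1 = s1 ∧ f r2 = s2) ∧
    (∀ f ∈ G, ∃ t1 t2 : S, (∀ s, s < t1 → f s = s) ∧ (∀ s, t2 < s → f s = s)) ∧
    (∀ f ∈ G, (∀ t, t ≤ f t) → f ≠ 1 → ∃ f1 ∈ G, ∃ f2 ∈ G, f1 ≠ 1 ∧ f2 ≠ 1 ∧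
      (∀ t, min (f1 t) (f2 t) = t) ∧ (∀ t, max (f1 t) (f2 t) = f t)) := by
  refine ⟨Lim, inferInstance, L, ?_, ?_, ?_, ?_, ?_, ?_⟩
  · obtain ⟨a, a1, a2⟩ := point 0 (0 : ℚ)
    obtain ⟨b, b1, b2⟩ := point 0 (1 : ℚ)
    obtain ⟨c, c1, c2⟩ := point 0 (2 : ℚ)
    refine ⟨mk a, mk b, mk c, lt_of_not_ge fun h => ?_, lt_of_not_ge fun h => ?_⟩
    · have := (le_iff b2 a2).mp (mk_le.mp h)
      rw [a1, b1] at this
      exact absurd (show (1 : ℚ) ≤ 0 from this) (by norm_num)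
    · have := (le_iff c2 b2).mp (mk_le.mp h)
      rw [c1, b1] at this
      exact absurd (show (2 : ℚ) ≤ 1 from this) (by norm_num)
  · rintro F ⟨φ, N, h1, h2⟩ G ⟨ψ, M, h3, h4⟩
    have h5 := h1.mono (le_max_left N M)
    have h6 := h3.mono (le_max_right N M)
    have h7 : Comp (fun n => omax (φ n) (ψ n)) (max N M) :=
      ⟨h5.1.of_fix h6.1 fun s e1 e2 => by rw [omax_apply, e1, e2, max_self],
        fun n hn => by beta_reduce; rw [h5.2 n hn, h6.2 n hn, st_omax]⟩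
    obtain ⟨H, hH⟩ := exists_ind _ _ h7
    refine ⟨H, ⟨_, _, h7, hH⟩, fun t => ?_⟩
    obtain ⟨x, rfl⟩ := mk_surj t
    rw [hH.apply h7, h2.apply h1, h4.apply h3]
    exact mk_max (Eventually.of_forall fun _ => rfl)
  · rintro F ⟨φ, N, h1, h2⟩ G ⟨ψ, M, h3, h4⟩
    have h5 := h1.mono (le_max_left N M)
    have h6 := h3.mono (le_max_right N M)
    have h7 : Comp (fun n => omin (φ n) (ψ n)) (max N M) :=
      ⟨h5.1.of_fix h6.1 fun s e1 e2 => by rw [omin_apply, e1, e2, min_self],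
        fun n hn => by beta_reduce; rw [h5.2 n hn, h6.2 n hn, st_omin]⟩
    obtain ⟨H, hH⟩ := exists_ind _ _ h7
    refine ⟨H, ⟨_, _, h7, hH⟩, fun t => ?_⟩
    obtain ⟨x, rfl⟩ := mk_surj t
    rw [hH.apply h7, h2.apply h1, h4.apply h3]
    exact mk_min (Eventually.of_forall fun _ => rfl)
  · intro r1 r2 s1 s2 hr hs
    obtain ⟨r1, rfl⟩ := mk_surj r1
    obtain ⟨r2, rfl⟩ := mk_surj r2
    obtain ⟨s1, rfl⟩ := mk_surj s1
    obtain ⟨s2, rfl⟩ := mk_surj s2
    obtain ⟨N1, e1⟩ := r1.2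
    obtain ⟨N2, e2⟩ := r2.2
    obtain ⟨N3, e3⟩ := s1.2
    obtain ⟨N4, e4⟩ := s2.2
    obtain ⟨N, ⟨k1, k2⟩, k3⟩ :=
      (((mk_lt hr).and (mk_lt hs)).and (eventually_ge_atTop (N1 + N2 + N3 + N4))).exists
    obtain ⟨f, hB, f1, f2⟩ := good N _ _ _ _ k1 k2
    obtain ⟨φ, F, g1, g2, g3⟩ := lift N f hB
    have key : ∀ x y : X, (∀ n, N ≤ n → x.1 (n + 1) = ι n (x.1 n)) →
        (∀ n, N ≤ n → y.1 (n + 1) = ι n (y.1 n)) → f (x.1 N) = y.1 N → F (mk x) = mk y := by
      intro x y hx hy hxy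
      rw [g3.apply g2]
      rw [← g1] at hxy
      exact le_antisymm (mk_le.mpr ((le_iff (act_comp g2 hx) hy).mpr hxy.le))
        (mk_le.mpr ((le_iff hy (act_comp g2 hx)).mpr hxy.ge))
    exact ⟨F, ⟨φ, N, g2, g3⟩,
      key _ _ (fun n hn => e1 n (by omega)) (fun n hn => e3 n (by omega)) f1,
      key _ _ (fun n hn => e2 n (by omega)) (fun n hn => e4 n (by omega)) f2⟩
  · rintro F ⟨φ, N, h1, h2⟩
    obtain ⟨t1, t2, ht⟩ := h1.1
    obtain ⟨x1, a1, a2⟩ := point N t1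
    obtain ⟨x2, b1, b2⟩ := point N t2
    have key : ∀ n, N ≤ n → (∀ s, s < x1.1 n → φ n s = s) ∧ (∀ s, x2.1 n < s → φ n s = s) := by
      intro n hn
      induction n, hn using Nat.le_induction with
      | base => rw [a1, b1]; exact ht
      | succ n hn ih => rw [h1.2 n hn, a2 n hn, b2 n hn]; exact st_fix n _ _ _ ih
    refine ⟨mk x1, mk x2, fun s hs => ?_, fun s hs => ?_⟩
    · obtain ⟨x, rfl⟩ := mk_surj s
      exact h2 x x (((mk_lt hs).and (eventually_ge_atTop N)).mono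
        fun n hn => ((key n hn.2).1 _ hn.1).symm)
    · obtain ⟨x, rfl⟩ := mk_surj s
      exact h2 x x (((mk_lt hs).and (eventually_ge_atTop N)).mono
        fun n hn => ((key n hn.2).2 _ hn.1).symm)
  · rintro F ⟨φ, N, h1, h2⟩ hpos hne
    have hpos' : ∀ y, y ≤ φ N y := by
      intro y
      obtain ⟨x, a1, a2⟩ := point N y
      have h3 := hpos (mk x)
      rw [h2.apply h1] at h3
      subst a1
      exact (le_iff a2 (act_comp h1 a2)).mp (mk_le.mp h3)
    obtain ⟨f1, f2, b1, b2, n1, n2, m1, m2⟩ :=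
      st_splits N (φ N) h1.1 hpos' (fun e => hne ((ne_one h1 h2).mpr e))
    obtain ⟨φ1, F1, c1, c2, c3⟩ := lift (N + 1) f1 b1
    obtain ⟨φ2, F2, d1, d2, d3⟩ := lift (N + 1) f2 b2
    have key : ∀ n, N + 1 ≤ n → omin (φ1 n) (φ2 n) = 1 ∧ omax (φ1 n) (φ2 n) = φ n := by
      intro n hn
      induction n, hn using Nat.le_induction with
      | base =>
        rw [c1, d1, h1.2 N le_rfl]
        exact ⟨by ext t; exact m1 t, by ext t; exact m2 t⟩
      | succ n hn ih =>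
        rw [c2.2 n hn, d2.2 n hn, h1.2 n (by omega), ← st_omin, ← st_omax, ih.1, ih.2, map_one]
        exact ⟨rfl, rfl⟩
    refine ⟨F1, ⟨φ1, _, c2, c3⟩, F2, ⟨φ2, _, d2, d3⟩,
      fun e => n1 (c1 ▸ (ne_one c2 c3).mp e), fun e => n2 (d1 ▸ (ne_one d2 d3).mp e),
      fun t => ?_, fun t => ?_⟩
    · obtain ⟨x, rfl⟩ := mk_surj t
      rw [c3.apply c2, d3.apply d2]
      refine (mk_min ((eventually_ge_atTop (N + 1)).mono fun n hn => ?_)).symm
      exact (congrArg (fun f : T n ≃o T n => f (x.1 n)) (key n hn).1).symm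
    · obtain ⟨x, rfl⟩ := mk_surj t
      rw [c3.apply c2, d3.apply d2, h2.apply h1]
      refine (mk_max ((eventually_ge_atTop (N + 1)).mono fun n hn => ?_)).symm
      exact (congrArg (fun f : T n ≃o T n => f (x.1 n)) (key n hn).2).symm

end Pool.Agent.Results.MP_31a5b6_al.NoLPrimes
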